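import Pool.Agent.H453Z.Rs.Bound
import Pool.Agent.H453Z.Rs.Sigma
import Pool.Agent.H453Z.Rs.Force

set_option autoImplicit false

namespace Pool.Agent.Results.MP_2f4f34_gt.AFull

open H453Z.Rs Cardinal Filter

lemma bn_eq_iff : boundingNumber = ℵ₁ ↔
    ¬ ∀ f : Pool.Agent.Helper292.ForceCH.Om → ℕ → ℕ, ∃ g : ℕ → ℕ, ∀ a, ∃ m, ∀ n, m ≤ n →
      f a n ≤ g n := by
  have h1 : #Pool.Agent.Helper292.ForceCH.Om = ℵ₁ := by simp
  constructor
  · intro hb hall
    obtain ⟨F, hF, hFu⟩ := bn_mem
    obtain ⟨e⟩ := Cardinal.eq.1 (h1.trans (hb.symm.trans hF.symm))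
    obtain ⟨g, hg⟩ := hall fun a => (e a).1
    refine hFu ⟨g, fun f hf => ?_⟩
    obtain ⟨m, hm⟩ := hg (e.symm ⟨f, hf⟩)
    simp only [Equiv.apply_symm_apply] at hm
    exact eventually_atTop.2 ⟨m, hm⟩
  · intro h
    refine le_antisymm ?_ aleph_one_le_bn
    by_contra hlt
    refine h fun f => ?_
    obtain ⟨g, hg⟩ := bdd_of_lt (h1.trans_lt (not_le.1 hlt)) f
    exact ⟨g, fun a => eventually_atTop.1 (hg a)⟩

/-- **Q1, both versions.** (1) In ZFC there is a Frechet-Urysohn group with `r_s = ω₁`.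
(2) There is a countable such group iff some family of functions indexed by `ω₁` is not eventually
dominated by one function (`𝔟 = ω₁`). (3) Some forcing notion preserves `ω₁` and forces that every
family of functions indexed by `ω₁` is eventually dominated by one function. -/
theorem result :
    (∃ (G : Type) (_ : Group G) (τ : TopologicalSpace G),
      IsTopologicalGroup G ∧ T2Space G ∧ FrechetUrysohnSpace G ∧
      (∃ S : Set (ℕ → G), Generates S τ) ∧ rs G τ = Cardinal.aleph 1) ∧
    ((∃ (G : Type) (_ : Group G) (τ : TopologicalSpace G), Countable G ∧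
      IsTopologicalGroup G ∧ T2Space G ∧ FrechetUrysohnSpace G ∧
      (∃ S : Set (ℕ → G), Generates S τ) ∧ rs G τ = Cardinal.aleph 1) ↔
      ¬ ∀ f : Pool.Agent.Helper292.ForceCH.Om → ℕ → ℕ, ∃ g : ℕ → ℕ, ∀ a, ∃ m, ∀ n, m ≤ n →
        f a n ≤ g n) ∧
    (∃ (P : Type) (_ : Preorder P), Nonempty P ∧ ∀ p : P,
      p ∈ Pool.Agent.Helper292.ForceCH.OmegaOnePreserved P ∧ p ∈ BoundingAbove P) := by
  refine ⟨exists_group, ?_, Force.exists_forcing⟩
  rw [← bn_eq_iff]
  constructor
  · rintro ⟨G, _, τ, _, _, _, _, -, h⟩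
    refine le_antisymm ?_ aleph_one_le_bn
    rw [← h]
    refine bn_le_rs G fun hd => ?_
    rw [rs_discrete G] at h
    exact (aleph_pos 1).ne h
  · intro h
    have hnd : ¬ DiscreteTopology (Multiplicative ℚ) := by
      intro hd
      have : DiscreteTopology ℚ := hd
      exact not_isOpen_singleton (0 : ℚ) (isOpen_discrete _)
    have h1 : FirstCountableTopology (Multiplicative ℚ) :=
      inferInstanceAs (FirstCountableTopology ℚ)
    have h2 : T2Space (Multiplicative ℚ) := inferInstanceAs (T2Space ℚ)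
    have h3 : Countable (Multiplicative ℚ) := inferInstanceAs (Countable ℚ)
    refine ⟨Multiplicative ℚ, inferInstance, inferInstance, h3, inferInstance, h2, inferInstance,
      ⟨_, generates_all⟩, ?_⟩
    rw [← h]
    exact le_antisymm (rs_le_bn _) (bn_le_rs _ hnd)

end Pool.Agent.Results.MP_2f4f34_gt.AFull
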