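import Pool.Agent.H453Z.Rs.Bound

set_option autoImplicit false

namespace Pool.Agent.Results.MP_2f4f34_gt.BCountable

open H453Z.Rs

/-- **Countable groups.** Every countable non-discrete Hausdorff Frechet-Urysohn group is an
`s`-group with `r_s` at least the bounding number, with equality if the group is first countable
(metrizable). -/
theorem result (G : Type) [Group G] [Countable G] [τ : TopologicalSpace G] [IsTopologicalGroup G]
    [T2Space G] [FrechetUrysohnSpace G] (hnd : ¬ DiscreteTopology G) :
    (∃ S : Set (ℕ → G), Generates S τ) ∧ boundingNumber ≤ rs G τ ∧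
      (FirstCountableTopology G → rs G τ = boundingNumber) :=
  ⟨⟨_, generates_all⟩, bn_le_rs G hnd, fun _ => le_antisymm (rs_le_bn G) (bn_le_rs G hnd)⟩

end Pool.Agent.Results.MP_2f4f34_gt.BCountable
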