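import Pool.Agent.H453Z.Rs.Sigma

set_option autoImplicit false

namespace Pool.Agent.Results.MP_2f4f34_gt.CSigmaProduct

open H453Z.Rs

/-- **A Frechet-Urysohn group with `r_s = ω₁` in ZFC.** -/
theorem result : ∃ (G : Type) (_ : Group G) (τ : TopologicalSpace G),
    IsTopologicalGroup G ∧ T2Space G ∧ FrechetUrysohnSpace G ∧
    (∃ S : Set (ℕ → G), Generates S τ) ∧ rs G τ = Cardinal.aleph 1 :=
  exists_group

end Pool.Agent.Results.MP_2f4f34_gt.CSigmaProduct
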